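import Pool.Agent.R942.WK.Main

/-!
# MP_f8720a_ag: Kato's conjecture for the two outermost pairs of graded pieces
-/

set_option autoImplicit false

open Module

universe u v

namespace Pool.Agent.Results.MP_f8720a_ag.FirstTwoLayers

open Pool.Agent.Y143 Pool.Agent.R942.WK

/-- **Kato's log `l`-adic monodromy-weight conjecture for the two outermost pairs of graded pieces.**
Let `X` be an SNCL scheme over a family of log points `S`, projective over `S°` of relative dimension
`n`, let `s` be a geometric point of `S°`, and let `X°^(j)` be the disjoint union of the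
`(j + 1)`-fold intersections of the smooth components of the fibre. Let `1 ≤ m ≤ n`.

(1) `N^m : gr^P_(2 m) H^m → gr^P_0 H^m` and `N^m : gr^P_(2 n) H^(2 n - m) → gr^P_(2 n - 2 m)
H^(2 n - m)` are isomorphisms.

(2) Let `m ≥ 2`. Then `N^(m-1) : gr^P_(2 m - 1) H^m → gr^P_1 H^m` is injective and its cokernel has
dimension at most `b_3 - b_1`, where `b_3` and `b_1` are the Betti numbers of `X°^(m-2)`; dually,
`N^(m-1) : gr^P_(2 n - 1) H^(2 n - m) → gr^P_(2 n - 2 m + 1) H^(2 n - m)` is surjective, with kernel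
of dimension at most `b_3 - b_1`.

(3) For `m = n ≥ 2` (where `X°^(n-2)` consists of surfaces) the map
`N^(n-1) : gr^P_(2 n - 1) H^n → gr^P_1 H^n` is an isomorphism. -/
theorem result {Ω : Type u} [Field Ω] [CharZero Ω] {Γ : Type} {n : ℕ}
    (F : LogFamily.{u, v} Ω Γ n) (s : F.Point) (m : ℕ) (hm : 1 ≤ m) (hmn : m ≤ n) :
    ((F.Ker s m m = 0 ∧ F.Cok s m m = 0) ∧
      F.Ker s (2 * n - m) m = 0 ∧ F.Cok s (2 * n - m) m = 0) ∧
    (2 ≤ m →
      (F.Ker s m (m - 1) = 0 ∧
        F.Cok s m (m - 1) ≤ F.betti s (m - 2) 3 - F.betti s (m - 2) 1) ∧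
      (F.Cok s (2 * n - m) (m - 1) = 0 ∧
        F.Ker s (2 * n - m) (m - 1) ≤ F.betti s (m - 2) 3 - F.betti s (m - 2) 1) ∧
      (m = n → F.Cok s m (m - 1) = 0)) :=
  ⟨F.layer_zero s hm hmn, fun h => F.layer_one s h hmn⟩

end Pool.Agent.Results.MP_f8720a_ag.FirstTwoLayers
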