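import Pool.Agent.R937.WN.Main

/-!
# MP_f8720a_ag: weights with a sublinear error imply Kato's log monodromy-weight conjecture

Let `s` be the log point over a finite field with `q` elements (that contains all roots of unity of order
a power of `l` only after a base extension, which we make where it is needed: `Φ` is a lift of the
geometric Frobenius). For a projective SNCL scheme `X` over `s` the graded piece `gr^P_k` of the weight
filtration of the log cohomology `H^i(X)` is pure of weight `k` (Deligne), so Q1 for `X` and `i`,
`P = M`, says that all Frobenius eigenvalues on `gr^M_j H^i(X)` (with `M` centred at `0`) are `q`-Weil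
numbers of weight `i + j` (`WMC`). The following are equivalent:

* Q1 for all projective SNCL schemes over `s` and all `i`;
* for all `X` of even dimension and all even `i` the Frobenius eigenvalues on the one subquotient
  `ker N / (ker N ∩ im N)` of `H^i(X)` are algebraic numbers all of whose complex conjugates `β'`
  satisfy `q ^ ((i - 1) / 2) ≤ |β'| ≤ q ^ ((i + 1) / 2)`: the weight is `i`, up to an error of at most one;
* the same with an error of at most `b (dim X)`, for one function `b` with `b(d) / d → 0`.

(For Q1 the case of points is enough, as stated in the problem file, and by specialization the case of
log points over finite fields.) So if Kato's conjecture fails for one `X` then the weights on the part of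
the cohomology which is killed by `N` and does not come from `im N` are wrong by at least `c dim Y`,
`c > 0`, for suitable `Y` of arbitrarily large dimension; and only this part has to be studied.

The reasons: a string of length `a + 1` of `N` on `H^i(X)` whose weights are wrong by `δ` gives a string
of length one on `H^(2i)(X × X)` whose weight is wrong by `2 δ`, and the errors add up in powers.

Formulation. `Theory` is a class of schemes that is closed under products with the spaces
`H X i = H^i(X) ⊗ K`, `K` a field of characteristic zero that contains `ℚ_l`, the Frobenius `Φ`, the
monodromy operator `N` and its monodromy filtration `M` (`IsMonodromy`; it is unique, so it is stable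
under `Φ`), and with the Künneth formula in the form that `H X i ⊗ H Y j` is a direct summand of
`H (X × Y) (i + j)`. For SNCL schemes `X × Y` is a projective SNCL scheme over `s` that is a log
modification of the product over `s` (blow up the products of the components in some order); it has
the same log cohomology. `Occ 0 β` says that `β` is an eigenvalue on `ker N / (ker N ∩ im N)`.
-/

universe u v w

namespace Pool.Agent.Results.MP_f8720a_ag.SublinearWeights

open Pool.Agent.R937.WN

/-- **Weights with a sublinear error imply the weight-monodromy conjecture.** -/
theorem result {K : Type v} [Field K] [CharZero K] {q : ℕ} (hq : 1 < q)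
    (T : Theory.{u, v, w} K q) :
    List.TFAE [∀ (X : T.Obj) (i : ℕ), T.WMC X i,
      ∀ (X : T.Obj) (i : ℕ) (β : K), Even (T.dim X) → Even i → (T.H X i).Occ 0 β →
        WeightNear q 1 i β,
      ∃ b : ℕ → ℕ, (∀ C : ℕ, ∃ N, ∀ n ≥ N, C * b n ≤ n) ∧
        ∀ (X : T.Obj) (i : ℕ) (β : K), Even (T.dim X) → Even i → (T.H X i).Occ 0 β →
          WeightNear q (b (T.dim X)) i β] :=
  main T hq

end Pool.Agent.Results.MP_f8720a_ag.SublinearWeights
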