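import Pool.Agent.R942.WK.Main

/-!
# MP_f8720a_ag: Kato's conjecture for the third pair of graded pieces
-/

set_option autoImplicit false

open Module

universe u v

namespace Pool.Agent.Results.MP_f8720a_ag.ThirdLayer

open Pool.Agent.Y143 Pool.Agent.R942.WK

/-- **The defect of Kato's log `l`-adic monodromy-weight conjecture on the third pair of graded
pieces.** Let `X` be an SNCL scheme over a family of log points `S`, projective over `S°` of relative
dimension `n`, let `s` be a geometric point of `S°`, and let `X°^(j)` be the disjoint union of the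
`(j + 1)`-fold intersections of the smooth components of the fibre. Let `3 ≤ m ≤ n`, let `b_2` and
`b_4` be the Betti numbers of `X°^(m-3)`, and let `ρ` be the dimension of the subspace of
`H^2(X°^(m-3))` spanned by the classes of divisors (on a specialization over a finite field).

(1) The kernel of `N^(m-2) : gr^P_(2 m - 2) H^m → gr^P_2 H^m` has dimension at most `b_2 - ρ`, and its
cokernel has dimension at most `b_4 - ρ`.

(2) The cokernel of `N^(m-2) : gr^P_(2 n - 2) H^(2 n - m) → gr^P_(2 n - 2 m + 2) H^(2 n - m)` has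
dimension at most `b_2 - ρ`, and its kernel has dimension at most `b_4 - ρ`.

(3) For `m = n` the kernel and the cokernel of `N^(n-2) : gr^P_(2 n - 2) H^n → gr^P_2 H^n` have
dimension at most `b_2 - ρ`.

In particular `N^(n-2)` is an isomorphism if `H^2` of the threefolds in `X°^(n-3)` is spanned by the
classes of divisors. -/
theorem result {Ω : Type u} [Field Ω] [CharZero Ω] {Γ : Type} {n : ℕ}
    (F : LogFamily.{u, v} Ω Γ n) (s : F.Point) (m : ℕ) (hm : 3 ≤ m) (hmn : m ≤ n) :
    (F.Ker s m (m - 2) ≤ F.betti s (m - 3) 2 - F.rho s (m - 3) ∧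
      F.Cok s m (m - 2) ≤ F.betti s (m - 3) 4 - F.rho s (m - 3)) ∧
    (F.Cok s (2 * n - m) (m - 2) ≤ F.betti s (m - 3) 2 - F.rho s (m - 3) ∧
      F.Ker s (2 * n - m) (m - 2) ≤ F.betti s (m - 3) 4 - F.rho s (m - 3)) ∧
    (m = n → F.Cok s m (m - 2) ≤ F.betti s (m - 3) 2 - F.rho s (m - 3)) :=
  F.layer_two s hm hmn

end Pool.Agent.Results.MP_f8720a_ag.ThirdLayer
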