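import Pool.Agent.R277.LT.Van

/-!
# MP_f8720a_ag: Kato's conjecture for `X` is the vanishing of Galois invariants on `X × E ^ n × A`
-/

set_option autoImplicit false

universe u v

namespace Pool.Agent.Results.MP_f8720a_ag.VanishingOfInvariants

open Pool.Agent.R277.LT.Tw

/-- **Kato's conjecture as a vanishing of invariants.** Let `X` be an SNCL scheme, projective,
equidimensional, over a standard log point `s` over a field with `q` elements, `G = π_1^log(s)`, and
`E` a log Tate curve over `s`. The monodromy-weight conjecture holds for `X` (in all degrees) if and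
only if `H^m(X × E ^ n × A)_ℓ(a)^G = 0` for all `n`, all abelian varieties `A` over the base field and
all `m < 2 a`. -/
theorem result {K : Type u} [Field K] [IsAlgClosed K] [CharZero K] {q : ℕ} (hq : 1 < q)
    (𝒜 : AbelianVarieties K q) (X : LogScheme.{u, v} K q) :
    X.WeightMonodromy ↔ ∀ (n : ℕ) (A : 𝒜.Obj), X.Vanishing 𝒜 n A :=
  LogScheme.weightMonodromy_iff_vanishing hq

end Pool.Agent.Results.MP_f8720a_ag.VanishingOfInvariants
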